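import Mathlib
import Pool.Agent.Helper142.Lc.Defs
import Pool.Agent.Helper142.Lc.Setup
import Pool.Agent.Helper142.Lc.A1
import Pool.Agent.Helper142.Lc.A4p
import Pool.Agent.Helper142.Lc.S8
import Pool.Agent.Helper142.Lc.LC
import Pool.Agent.Helper142.Lc.Pairs
import Pool.Agent.Helper142.Lc.Conv

/-!
# MP_18dec4_ag: log canonical `p`-adic families with irreducible non-`S₂` closed fibre

For every prime `p > 2` there is an integral normal scheme `X = Spec B`, flat and of finite type
over `ℤ_p`, with `(X, X_p)` log canonical and `X_p` irreducible but not `S₂`.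

`X` is the quotient of the affine space `𝔸^{2(p-1)}` over `ℤ_p` by the cyclic group of order `p`
generated by the linear automorphism `g` acting on two copies of `ℤ_p[ζ_p]` by multiplication by
`ζ_p`.  The definitions `LcP.IsLogCanonicalPair` and `LcP.IsSerreS2` used in the statement are in
`Pool.Agent.Helper142.Lc.Pairs`, with an explanation.
-/

namespace Pool.Agent.Results.MP_18dec4_ag.IrreducibleNonS2

open LcP

/-- All the properties, for a ring `B` identified with the ring of invariants of `g`. -/
theorem main_abstract (p : ℕ) [Fact p.Prime] (hp : 2 < p)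
    (B : Type) [CommRing B] [IsDomain B] [Algebra ℤ_[p] B] [Algebra B (PolyA p)]
    [IsScalarTower ℤ_[p] B (PolyA p)]
    (hinj : Function.Injective (algebraMap B (PolyA p)))
    (hB : ∀ a, a ∈ Set.range (algebraMap B (PolyA p)) ↔ gHom p a = a) :
    IsIntegrallyClosed B ∧ Algebra.FiniteType ℤ_[p] B ∧ Module.Flat ℤ_[p] B ∧
      IsLogCanonicalPair p B ∧
      IrreducibleSpace (PrimeSpectrum (B ⧸ Ideal.span {(p : B)})) ∧
      ¬ IsSerreS2 (B ⧸ Ideal.span {(p : B)}) := by
  have hpp : 0 < p := (Fact.out : p.Prime).pos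
  obtain ⟨-, h2, h3, -⟩ := LcP.A4p.A4_fixed_ring' (gHom p) p hpp (LcP.A1.gHom_iterate p) hinj hB
  obtain ⟨h5, h6⟩ := LcP.S8.S8_not_S2 p hp hinj hB
  refine ⟨h3 inferInstance, h2, ?_, IsLogCanonicalPair.of_aux (LcP.LC.LC_final p hp hinj hB), ?_,
    fun h => h6 h.isS2⟩
  · have hinj' : Function.Injective (algebraMap ℤ_[p] B) := by
      have h : Function.Injective (algebraMap ℤ_[p] (PolyA p)) :=
        MvPolynomial.C_injective _ _
      rw [IsScalarTower.algebraMap_eq ℤ_[p] B (PolyA p)] at h
      exact Function.Injective.of_comp h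
    have : Module.IsTorsionFree ℤ_[p] B := by
      have : FaithfulSMul ℤ_[p] B := (faithfulSMul_iff_algebraMap_injective _ _).2 hinj'
      infer_instance
    infer_instance
  · infer_instance

/-- **Theorem.** For every prime `p > 2` there exists an integral normal scheme `X = Spec B`, flat
and of finite type over `ℤ_p`, such that the pair `(X, X_p)` is log canonical and the closed fibre
`X_p = Spec (B/pB)` is irreducible but not `S₂`. -/
theorem result (p : ℕ) [Fact p.Prime] (hp : 2 < p) :
    ∃ (B : Type) (_ : CommRing B) (_ : IsDomain B) (_ : Algebra ℤ_[p] B),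
      IsIntegrallyClosed B ∧ Algebra.FiniteType ℤ_[p] B ∧ Module.Flat ℤ_[p] B ∧
      IsLogCanonicalPair p B ∧
      IrreducibleSpace (PrimeSpectrum (B ⧸ Ideal.span {(p : B)})) ∧
      ¬ IsSerreS2 (B ⧸ Ideal.span {(p : B)}) := by
  refine ⟨InvB p, inferInstance, inferInstance, inferInstance, ?_⟩
  refine main_abstract p hp (InvB p) Subtype.val_injective ?_
  intro a
  constructor
  · rintro ⟨b, rfl⟩
    exact b.2
  · intro ha
    exact ⟨⟨a, ha⟩, rfl⟩

end Pool.Agent.Results.MP_18dec4_ag.IrreducibleNonS2
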